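import Pool.Agent.V11270.Inh.Choice

/-!
# MP_12d26a: the spectrum of the uniform inhomogeneous exponent of a Liouville number is `[0, ∞]`
-/

set_option autoImplicit false

open Finset Filter Topology

namespace Pool.Agent.Results.MP_12d26a_nt.LiouvilleSpectrum

open Pool.Agent.V11270.Inh

/-- `w` is a uniform exponent of `(ζ, α)`: for every sufficiently large real `X` there are integers
`x0, x1` with `1 ≤ x1 ≤ X` and `|α + x0 + ζ x1| ≤ X ^ (-w)`. -/
def IsUnif (ζ α w : ℝ) : Prop :=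
  ∀ᶠ X : ℝ in atTop, ∃ x0 x1 : ℤ, 1 ≤ x1 ∧ (x1 : ℝ) ≤ X ∧ |α + x0 + ζ * x1| ≤ X ^ (-w)

/-- The exponent `ŵ₁(ζ, α)`, the supremum in `[-∞, ∞]` of all real `w` that are uniform
exponents of `(ζ, α)`. -/
noncomputable def what (ζ α : ℝ) : EReal := sSup ((fun w : ℝ => (w : EReal)) '' {w | IsUnif ζ α w})

/-- The spectrum: the values for `α` outside `ℤ + ℤ ζ`. -/
def spectrum (ζ : ℝ) : Set EReal := {c | ∃ α : ℝ, (∀ a b : ℤ, α ≠ a + b * ζ) ∧ what ζ α = c}

theorem isUnif_zero (ζ α : ℝ) : IsUnif ζ α 0 := by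
  filter_upwards [eventually_ge_atTop (1 : ℝ)] with X hX
  refine ⟨-⌊α + ζ⌋, 1, le_refl 1, by simpa using hX, ?_⟩
  rw [neg_zero, Real.rpow_zero]
  push_cast
  have h1 := Int.floor_le (α + ζ)
  have h2 := Int.lt_floor_add_one (α + ζ)
  rw [abs_le]
  constructor <;> linarith

theorem what_nonneg (ζ α : ℝ) : 0 ≤ what ζ α := by
  apply le_sSup
  exact ⟨0, isUnif_zero ζ α, by simp⟩

/-- Criterion for a uniform exponent. -/
theorem isUnif_of {ζ α w : ℝ} (hw : 0 ≤ w) {Q E : ℕ → ℝ} {N : ℕ → ℕ}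
    (hN0 : N 0 = 0) (hNm : StrictMono N) (hNQ : ∀ j, (N (j + 1) : ℝ) ≤ 2 * Q j)
    (hP : ∀ j, ∃ P : ℤ, |α + P + ζ * N j| ≤ 2 * E j)
    (h : ∀ᶠ j in atTop, 2 * E j ≤ (2 * Q j) ^ (-w)) : IsUnif ζ α w := by
  obtain ⟨j0, hj0⟩ := eventually_atTop.mp h
  filter_upwards [eventually_ge_atTop ((N (j0 + 1) : ℕ) : ℝ)] with X hX
  -- find `j`
  have hXn : N (j0 + 1) ≤ ⌊X⌋₊ := Nat.le_floor hX
  obtain ⟨j, hj1, hj2⟩ : ∃ j, N j ≤ ⌊X⌋₊ ∧ ⌊X⌋₊ < N (j + 1) := by
    have hex : ∃ k, ⌊X⌋₊ < N k := ⟨⌊X⌋₊ + 1, lt_of_lt_of_le (Nat.lt_succ_self _) hNm.le_apply⟩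
    classical
    have h1 := Nat.find_spec hex
    have h2 : Nat.find hex ≠ 0 := by
      intro h0
      rw [h0, hN0] at h1
      omega
    obtain ⟨k, hk⟩ := Nat.exists_eq_succ_of_ne_zero h2
    refine ⟨k, ?_, ?_⟩
    · have := Nat.find_min hex (m := k) (by omega)
      omega
    · rw [hk] at h1
      exact h1
  have hjj : j0 < j + 1 := by
    have : N (j0 + 1) < N (j + 1) := lt_of_le_of_lt hXn hj2
    have := hNm.lt_iff_lt.mp this
    omega
  have hj1' : j0 + 1 ≤ j := by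
    have : N (j0 + 1) < N (j + 1) := lt_of_le_of_lt hXn hj2
    have := hNm.lt_iff_lt.mp this
    omega
  obtain ⟨P, hPj⟩ := hP j
  have hNpos : 1 ≤ N j := by
    have : N 0 < N j := hNm (by omega)
    omega
  have hX1 : (1 : ℝ) ≤ X := by
    have h1 : (1 : ℝ) ≤ N (j0 + 1) := by
      have : N 0 < N (j0 + 1) := hNm (by omega)
      exact_mod_cast (by omega : 1 ≤ N (j0 + 1))
    linarith
  have hX0 : (0 : ℝ) ≤ X := by linarith
  refine ⟨P, N j, by exact_mod_cast hNpos, ?_, ?_⟩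
  · have h1 : ((N j : ℕ) : ℝ) ≤ ⌊X⌋₊ := by exact_mod_cast hj1
    have h2 := Nat.floor_le hX0
    push_cast
    linarith
  · have hval : α + P + ζ * ((N j : ℤ) : ℝ) = α + P + ζ * N j := by push_cast; ring
    rw [hval]
    refine hPj.trans ((hj0 j (by omega)).trans ?_)
    have hXQ : X ≤ 2 * Q j := by
      have h1 := Nat.lt_floor_add_one X
      have h2 : ((⌊X⌋₊ + 1 : ℕ) : ℝ) ≤ N (j + 1) := by exact_mod_cast hj2
      push_cast at h2
      have := hNQ j
      linarith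
    exact Real.rpow_le_rpow_of_nonpos (by linarith) hXQ (by linarith)

/-- Criterion for not being a uniform exponent. -/
theorem not_isUnif_of {ζ α w : ℝ} {Q E : ℕ → ℝ}
    (hQt : Tendsto Q atTop atTop)
    (hlow : ∀ j, ∀ x0 x1 : ℤ, 1 ≤ x1 → (x1 : ℝ) ≤ Q j / 2 → E j / 4 ≤ |α + x0 + ζ * x1|)
    (h : ∀ᶠ j in atTop, (Q j / 2) ^ (-w) < E j / 4) : ¬ IsUnif ζ α w := by
  intro hu
  have hQ2 : Tendsto (fun j => Q j / 2) atTop atTop := hQt.atTop_div_const (by norm_num)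
  have h1 := hQ2.eventually hu
  obtain ⟨j, ⟨x0, x1, hx1, hx2, hx3⟩, hj⟩ := (h1.and h).exists
  have := hlow j x0 x1 hx1 hx2
  linarith

theorem mem_top {ζ : ℝ} (hζ : Liouville ζ) : (⊤ : EReal) ∈ spectrum ζ := by
  obtain ⟨α, Q, E, N, hα, hR, hE0, hQ1, hN0, hNm, hNQ, -, hQt, hP, hlow⟩ :=
    build (R := fun K Q E => E ≤ Q ^ (-(K : ℝ))) (fun K N => choice_inf hζ K N)
  refine ⟨α, hα, ?_⟩
  have hall : ∀ w : ℝ, 0 ≤ w → IsUnif ζ α w := by
    intro w hw
    apply isUnif_of hw hN0 hNm hNQ hP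
    filter_upwards [hQt.eventually_ge_atTop ((2 : ℝ) ^ (1 + w)),
      (tendsto_natCast_atTop_atTop (R := ℝ)).eventually_ge_atTop (w + 1)] with j hj1 hj2
    have hQpos : 0 < Q j := by linarith [hQ1 j]
    have h1 : E j ≤ Q j ^ (-(j : ℝ)) := hR j
    have h2 : Q j ^ (-(j : ℝ)) ≤ Q j ^ (-w) * (Q j)⁻¹ := by
      rw [← Real.rpow_neg_one, ← Real.rpow_add hQpos]
      exact Real.rpow_le_rpow_of_exponent_le (hQ1 j) (by linarith)
    have h3 : (2 * Q j) ^ (-w) = (2 : ℝ) ^ (-w) * Q j ^ (-w) :=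
      Real.mul_rpow (by norm_num) hQpos.le
    rw [h3]
    have h4 : (Q j)⁻¹ ≤ (2 : ℝ) ^ (-w) / 2 := by
      rw [inv_le_comm₀ hQpos (by positivity)]
      refine le_trans (le_of_eq ?_) hj1
      rw [Real.rpow_neg (by norm_num), Real.rpow_add (by norm_num), Real.rpow_one]
      field_simp
    have h5 : 0 ≤ Q j ^ (-w) := Real.rpow_nonneg hQpos.le _
    nlinarith [mul_le_mul_of_nonneg_left h4 h5]
  rw [what, eq_top_iff]
  refine le_of_forall_lt fun c hc => ?_
  obtain ⟨r, hr1, hr2⟩ := EReal.lt_iff_exists_real_btwn.mp hc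
  refine lt_of_lt_of_le hr1 ?_
  have : ((r : ℝ) : EReal) ≤ ((max r 0 : ℝ) : EReal) := by exact_mod_cast le_max_left _ _
  refine this.trans (le_sSup ⟨max r 0, hall _ (le_max_right _ _), rfl⟩)

theorem mem_real {ζ : ℝ} (hζ : Liouville ζ) {w : ℝ} (hw : 0 ≤ w) : (w : EReal) ∈ spectrum ζ := by
  obtain ⟨α, Q, E, N, hα, hR, hE0, hQ1, hN0, hNm, hNQ, -, hQt, hP, hlow⟩ :=
    build (R := fun K Q E => E ≤ Q ^ (-w) ∧ Q ^ (-(w + 1 / (K + 1 : ℝ))) ≤ E)
      (fun K N => choice_fin hζ hw K N)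
  refine ⟨α, hα, ?_⟩
  apply le_antisymm
  · -- upper bound
    refine sSup_le ?_
    rintro _ ⟨v, hv, rfl⟩
    show ((v : ℝ) : EReal) ≤ w
    rw [EReal.coe_le_coe_iff]
    by_contra hlt
    push Not at hlt
    refine not_isUnif_of hQt hlow ?_ hv
    have hd : 0 < (v - w) / 2 := by linarith
    -- `Q ^ ((v - w) / 2) → ∞`
    have ht : Tendsto (fun j => Q j ^ ((v - w) / 2)) atTop atTop :=
      (tendsto_rpow_atTop hd).comp hQt
    obtain ⟨j1, hj1⟩ := exists_nat_gt (2 / (v - w))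
    filter_upwards [ht.eventually_gt_atTop (4 * (2 : ℝ) ^ v), eventually_ge_atTop j1]
      with j hj hjj
    have hQpos : 0 < Q j := by linarith [hQ1 j]
    have hvw : 0 < v - w := by linarith
    have h1 : 1 / ((j : ℝ) + 1) ≤ (v - w) / 2 := by
      have h2 : (j1 : ℝ) ≤ j := by exact_mod_cast hjj
      rw [div_le_iff₀ (by positivity)]
      rw [div_lt_iff₀ hvw] at hj1
      nlinarith
    have h2 : Q j ^ (-(w + (v - w) / 2)) ≤ E j := by
      refine le_trans ?_ (hR j).2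
      exact Real.rpow_le_rpow_of_exponent_le (hQ1 j) (by linarith)
    have h3 : (Q j / 2) ^ (-v) = Q j ^ (-v) * 2 ^ v := by
      rw [Real.div_rpow hQpos.le (by norm_num), Real.rpow_neg (by norm_num : (0 : ℝ) ≤ 2), div_inv_eq_mul]
    rw [h3]
    have h4 : Q j ^ (-(w + (v - w) / 2)) = Q j ^ (-v) * Q j ^ ((v - w) / 2) := by
      rw [← Real.rpow_add hQpos]
      congr 1
      ring
    have h5 : Q j ^ (-v) * (4 * 2 ^ v) < Q j ^ (-v) * Q j ^ ((v - w) / 2) :=
      mul_lt_mul_of_pos_left hj (Real.rpow_pos_of_pos hQpos _)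
    rw [← h4] at h5
    linarith
  · -- lower bound
    rcases eq_or_lt_of_le hw with h0 | hpos
    · rw [← h0]
      simpa using what_nonneg ζ α
    refine le_of_forall_lt fun c hc => ?_
    obtain ⟨r, hr1, hr2⟩ := EReal.lt_iff_exists_real_btwn.mp hc
    have hrw : r < w := by exact_mod_cast hr2
    set v : ℝ := max r 0 with hv
    have hv0 : 0 ≤ v := le_max_right _ _
    have hvw : v < w := max_lt hrw hpos
    have hu : IsUnif ζ α v := by
      apply isUnif_of hv0 hN0 hNm hNQ hP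
      have ht : Tendsto (fun j => Q j ^ (w - v)) atTop atTop :=
        (tendsto_rpow_atTop (by linarith)).comp hQt
      filter_upwards [ht.eventually_ge_atTop ((2 : ℝ) ^ (1 + v))] with j hj
      have hQpos : 0 < Q j := by linarith [hQ1 j]
      have h1 : E j ≤ Q j ^ (-w) := (hR j).1
      have h3 : (2 * Q j) ^ (-v) = (2 : ℝ) ^ (-v) * Q j ^ (-v) :=
        Real.mul_rpow (by norm_num) hQpos.le
      rw [h3]
      have h4 : Q j ^ (-v) = Q j ^ (-w) * Q j ^ (w - v) := by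
        rw [← Real.rpow_add hQpos]
        congr 1
        ring
      rw [h4]
      have h5 : 0 < Q j ^ (-w) := Real.rpow_pos_of_pos hQpos _
      have h6 : (2 : ℝ) ^ (-v) * 2 ^ (1 + v) = 2 := by
        rw [← Real.rpow_add (by norm_num)]
        rw [show -v + (1 + v) = (1 : ℝ) by ring, Real.rpow_one]
      have h7 : (0 : ℝ) < 2 ^ (-v) := Real.rpow_pos_of_pos (by norm_num) _
      have h8 : (2 : ℝ) ≤ 2 ^ (-v) * Q j ^ (w - v) :=
        le_trans (le_of_eq h6.symm) (mul_le_mul_of_nonneg_left hj h7.le)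
      calc 2 * E j ≤ 2 * Q j ^ (-w) := by linarith
        _ ≤ (2 ^ (-v) * Q j ^ (w - v)) * Q j ^ (-w) := mul_le_mul_of_nonneg_right h8 h5.le
        _ = _ := by ring
    refine lt_of_lt_of_le hr1 ?_
    have : ((r : ℝ) : EReal) ≤ ((v : ℝ) : EReal) := by exact_mod_cast le_max_left _ _
    exact this.trans (le_sSup ⟨v, hu, rfl⟩)

theorem spectrum_eq (ζ : ℝ) (hζ : Liouville ζ) : spectrum ζ = Set.Ici (0 : EReal) := by
  ext c
  constructor
  · rintro ⟨α, -, rfl⟩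
    exact what_nonneg ζ α
  · intro hc
    induction c using EReal.rec with
    | bot => exact absurd hc (by simp)
    | coe w =>
      apply mem_real hζ
      have : (0 : EReal) ≤ (w : EReal) := hc
      exact_mod_cast this
    | top => exact mem_top hζ

/-- For every Liouville number the spectrum of `ŵ₁(ζ, ·)` is exactly `[0, ∞]`. In particular
(Q1) `[0, 1]` is contained in the spectrum of every Liouville number, and (Q2) for no Liouville
number is the spectrum equal to `[0, 1]`. -/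
theorem result : ∀ ζ : ℝ, Liouville ζ → spectrum ζ = Set.Ici (0 : EReal) :=
  spectrum_eq

end Pool.Agent.Results.MP_12d26a_nt.LiouvilleSpectrum
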